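import Pool.Agent.Helper12.NK.St

set_option autoImplicit false

namespace Pool.Agent.Helper81.NK

open Pool.Agent.Helper12.NK

theorem crs_intro {m : ℕ} {α : Type} (c : ZMod m → α) (A B : Set α) (i : ZMod m) (p q r s : ℕ)
    (h1 : p < q) (h2 : q < r) (h3 : r < s) (h4 : s < m)
    (ha : c (i + p) ∈ A) (hb : c (i + q) ∈ B) (ha' : c (i + r) ∈ A) (hb' : c (i + s) ∈ B) :
    Crs m c A B := by
  left
  refine ⟨i + p, q - p, r - p, s - p, by omega, by omega, by omega, by omega, ha, ?_, ?_, ?_⟩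
  · have e : (i + p + ((q - p : ℕ) : ZMod m)) = i + q := by
      rw [Nat.cast_sub h1.le]; ring
    rw [e]; exact hb
  · have e : (i + p + ((r - p : ℕ) : ZMod m)) = i + r := by
      rw [Nat.cast_sub (by omega)]; ring
    rw [e]; exact ha'
  · have e : (i + p + ((s - p : ℕ) : ZMod m)) = i + s := by
      rw [Nat.cast_sub (by omega)]; ring
    rw [e]; exact hb'

theorem crs_symm {m : ℕ} {α : Type} (c : ZMod m → α) (A B : Set α) (h : Crs m c A B) :
    Crs m c B A := by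
  rcases h with ⟨i, r, s, t, h1, h2, h3, h4, ha, hb, ha', hb'⟩ | ⟨x, y, z, h1, h2, h3, h4, h5, h6, h7, h8, h9⟩
  · left
    refine ⟨i + r, s - r, t - r, m - r, by omega, by omega, by omega, by omega, hb, ?_, ?_, ?_⟩
    · have e : (i + r + ((s - r : ℕ) : ZMod m)) = i + s := by
        rw [Nat.cast_sub h2.le]; ring
      rw [e]; exact ha'
    · have e : (i + r + ((t - r : ℕ) : ZMod m)) = i + t := by
        rw [Nat.cast_sub (by omega)]; ring
      rw [e]; exact hb'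
    · have e : (i + r + ((m - r : ℕ) : ZMod m)) = i := by
        rw [Nat.cast_sub (by omega)]
        simp
      rw [e]; exact ha
  · exact Or.inr ⟨x, y, z, h1, h2, h3, h5, h4, h7, h6, h9, h8⟩

/-- there is a crossing which avoids `z` -/
def Gd (m : ℕ) (a b : ℕ → Prop) (z : ℕ) : Prop :=
  (∃ p q r s, p < q ∧ q < r ∧ r < s ∧ s < m ∧ p ≠ z ∧ q ≠ z ∧ r ≠ z ∧ s ≠ z ∧
    ((a p ∧ b q ∧ a r ∧ b s) ∨ (b p ∧ a q ∧ b r ∧ a s))) ∨
  (∃ p q r, p < m ∧ q < m ∧ r < m ∧ p ≠ q ∧ q ≠ r ∧ p ≠ r ∧ p ≠ z ∧ q ≠ z ∧ r ≠ z ∧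
    a p ∧ b p ∧ a q ∧ b q ∧ a r ∧ b r)

theorem gdA {m : ℕ} {a b : ℕ → Prop} (z p q r s : ℕ) (h1 : p < q) (h2 : q < r) (h3 : r < s) (h4 : s < m)
    (n1 : p ≠ z) (n2 : q ≠ z) (n3 : r ≠ z) (n4 : s ≠ z) (ha : a p) (hb : b q) (ha' : a r) (hb' : b s) :
    Gd m a b z :=
  Or.inl ⟨p, q, r, s, h1, h2, h3, h4, n1, n2, n3, n4, Or.inl ⟨ha, hb, ha', hb'⟩⟩

theorem gdB {m : ℕ} {a b : ℕ → Prop} (z p q r s : ℕ) (h1 : p < q) (h2 : q < r) (h3 : r < s) (h4 : s < m)
    (n1 : p ≠ z) (n2 : q ≠ z) (n3 : r ≠ z) (n4 : s ≠ z) (hb : b p) (ha : a q) (hb' : b r) (ha' : a s) :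
    Gd m a b z :=
  Or.inl ⟨p, q, r, s, h1, h2, h3, h4, n1, n2, n3, n4, Or.inr ⟨hb, ha, hb', ha'⟩⟩

theorem gdC {m : ℕ} {a b : ℕ → Prop} (z p q r : ℕ) (h1 : p < m) (h2 : q < m) (h3 : r < m)
    (e1 : p ≠ q) (e2 : q ≠ r) (e3 : p ≠ r)
    (n1 : p ≠ z) (n2 : q ≠ z) (n3 : r ≠ z) (hp : a p) (hp' : b p) (hq : a q) (hq' : b q) (hr : a r) (hr' : b r) :
    Gd m a b z :=
  Or.inr ⟨p, q, r, h1, h2, h3, e1, e2, e3, n1, n2, n3, hp, hp', hq, hq', hr, hr'⟩

/-- the cardinality alternative for a predicate: a further position, or exactly the four given ones -/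
theorem four_alt {m : ℕ} (a : ℕ → Prop) (p1 p2 p3 p4 : ℕ) (h12 : p1 < p2) (h23 : p2 < p3) (h34 : p3 < p4)
    (h : 4 ≤ {t | t < m ∧ a t}.ncard) :
    (∃ q < m, a q ∧ q ≠ p1 ∧ q ≠ p2 ∧ q ≠ p3 ∧ q ≠ p4) ∨ (a p1 ∧ a p2 ∧ a p3 ∧ a p4) := by
  by_cases hq : ∃ q < m, a q ∧ q ≠ p1 ∧ q ≠ p2 ∧ q ≠ p3 ∧ q ≠ p4
  · exact Or.inl hq
  · right
    have hsub : {t | t < m ∧ a t} ⊆ ({p1, p2, p3, p4} : Set ℕ) := by
      intro t ht
      by_contra hn
      simp only [Set.mem_insert_iff, Set.mem_singleton_iff, not_or] at hn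
      exact hq ⟨t, ht.1, ht.2, hn.1, hn.2.1, hn.2.2.1, hn.2.2.2⟩
    have hfin : ({p1, p2, p3, p4} : Set ℕ).Finite := by
      exact Set.toFinite _
    have hcard : ({p1, p2, p3, p4} : Set ℕ).ncard ≤ 4 := by
      have e : ({p1, p2, p3, p4} : Set ℕ) = ((({p1, p2, p3, p4} : Finset ℕ)) : Set ℕ) := by
        simp
      rw [e, Set.ncard_coe_finset]
      exact Finset.card_le_four
    have heq : {t | t < m ∧ a t} = ({p1, p2, p3, p4} : Set ℕ) :=
      Set.eq_of_subset_of_ncard_le hsub (hcard.trans h) hfin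
    have m1 : p1 ∈ {t | t < m ∧ a t} := by rw [heq]; simp
    have m2 : p2 ∈ {t | t < m ∧ a t} := by rw [heq]; simp
    have m3 : p3 ∈ {t | t < m ∧ a t} := by rw [heq]; simp
    have m4 : p4 ∈ {t | t < m ∧ a t} := by rw [heq]; simp
    exact ⟨m1.2, m2.2, m3.2, m4.2⟩

theorem three_alt {m : ℕ} (a : ℕ → Prop) (p q p2 p4 : ℕ) (h2 : ¬ a p2) (h4 : ¬ a p4)
    (h : 3 ≤ {t | t < m ∧ a t}.ncard) :
    ∃ t < m, a t ∧ t ≠ p ∧ t ≠ p2 ∧ t ≠ q ∧ t ≠ p4 := by
  by_contra hq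
  have hsub : {t | t < m ∧ a t} ⊆ ({p, q} : Set ℕ) := by
    intro t ht
    by_contra hn
    simp only [Set.mem_insert_iff, Set.mem_singleton_iff, not_or] at hn
    refine hq ⟨t, ht.1, ht.2, hn.1, ?_, hn.2, ?_⟩
    · rintro rfl; exact h2 ht.2
    · rintro rfl; exact h4 ht.2
  have h3 : {t | t < m ∧ a t}.ncard ≤ ({p, q} : Set ℕ).ncard := Set.ncard_le_ncard hsub (Set.toFinite _)
  have h5 : ({p, q} : Set ℕ).ncard ≤ 2 := by
    have e : ({p, q} : Set ℕ) = ((({p, q} : Finset ℕ)) : Set ℕ) := by simp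
    rw [e, Set.ncard_coe_finset]
    exact Finset.card_le_two
  omega

/-- the hypothesis on the sizes -/
def Sz (m : ℕ) (a b : ℕ → Prop) : Prop :=
  (4 ≤ {t | t < m ∧ a t}.ncard ∧ 4 ≤ {t | t < m ∧ b t}.ncard) ∨
  (3 ≤ {t | t < m ∧ a t}.ncard ∧ 3 ≤ {t | t < m ∧ b t}.ncard ∧ ∀ t < m, a t → ¬ b t)

theorem L13 {m : ℕ} {a b : ℕ → Prop} (p1 p2 p3 p4 : ℕ) (h12 : p1 < p2) (h23 : p2 < p3) (h34 : p3 < p4)
    (h4 : p4 < m) (a1 : a p1) (b2 : b p2) (a3 : a p3) (b4 : b p4) (hs : Sz m a b) :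
    Gd m a b p1 ∨ Gd m a b p3 := by
  have key : ∀ q < m, a q → q ≠ p1 → q ≠ p2 → q ≠ p3 → q ≠ p4 → Gd m a b p1 ∨ Gd m a b p3 := by
    intro q hq aq n1 n2 n3 n4
    rcases lt_or_ge q p2 with h | h
    · left
      exact gdA p1 q p2 p3 p4 h h23 h34 h4 n1 (by omega) (by omega) (by omega) aq b2 a3 b4
    · rcases lt_or_ge q p4 with h' | h'
      · right
        exact gdA p3 p1 p2 q p4 h12 (by omega) h' h4 (by omega) (by omega) n3 (by omega) a1 b2 aq b4
      · left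
        exact gdB p1 p2 p3 p4 q h23 h34 (by omega) hq (by omega) (by omega) (by omega) n1 b2 a3 b4 aq
  rcases hs with ⟨hA, hB⟩ | ⟨hA, hB, hd⟩
  · rcases four_alt a p1 p2 p3 p4 h12 h23 h34 hA with ⟨q, hq, aq, n1, n2, n3, n4⟩ | ⟨-, a2, -, a4⟩
    · exact key q hq aq n1 n2 n3 n4
    · rcases four_alt b p1 p2 p3 p4 h12 h23 h34 hB with ⟨q, hq, bq, n1, n2, n3, n4⟩ | ⟨b1, -, b3, -⟩
      · rcases lt_or_ge q p1 with h | h
        · right
          exact gdB p3 q p1 p2 p4 h h12 (by omega) h4 n3 (by omega) (by omega) (by omega) bq a1 b2 a4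
        · rcases lt_or_ge q p2 with h' | h'
          · right
            exact gdA p3 p1 q p2 p4 (by omega) h' (by omega) h4 (by omega) n3 (by omega) (by omega) a1 bq a2 b4
          · rcases lt_or_ge q p3 with h'' | h''
            · left
              exact gdA p1 p2 q p3 p4 (by omega) h'' h34 h4 (by omega) n1 (by omega) (by omega) a2 bq a3 b4
            · rcases lt_or_ge q p4 with h3 | h3
              · left
                exact gdB p1 p2 p3 q p4 h23 (by omega) h3 h4 (by omega) (by omega) n1 (by omega) b2 a3 bq a4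
              · right
                exact gdA p3 p1 p2 p4 q h12 (by omega) (by omega) hq (by omega) (by omega) (by omega) n3 a1 b2 a4 bq
      · left
        exact gdC p1 p2 p3 p4 (by omega) (by omega) h4 (by omega) (by omega) (by omega) (by omega) (by omega)
          (by omega) a2 b2 a3 b3 a4 b4
  · obtain ⟨q, hq, aq, n1, n2, n3, n4⟩ := three_alt a p1 p3 p2 p4 (fun h => hd p2 (by omega) h b2)
      (fun h => hd p4 h4 h b4) hA
    exact key q hq aq n1 n2 n3 n4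

theorem L24 {m : ℕ} {a b : ℕ → Prop} (p1 p2 p3 p4 : ℕ) (h12 : p1 < p2) (h23 : p2 < p3) (h34 : p3 < p4)
    (h4 : p4 < m) (a1 : a p1) (b2 : b p2) (a3 : a p3) (b4 : b p4) (hs : Sz m a b) :
    Gd m a b p2 ∨ Gd m a b p4 := by
  have key : ∀ q < m, b q → q ≠ p1 → q ≠ p2 → q ≠ p3 → q ≠ p4 → Gd m a b p2 ∨ Gd m a b p4 := by
    intro q hq bq n1 n2 n3 n4
    rcases lt_or_ge q p1 with h | h
    · right
      exact gdB p4 q p1 p2 p3 h h12 h23 (by omega) n4 (by omega) (by omega) (by omega) bq a1 b2 a3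
    · rcases lt_or_ge q p3 with h' | h'
      · left
        exact gdA p2 p1 q p3 p4 (by omega) h' h34 h4 (by omega) n2 (by omega) (by omega) a1 bq a3 b4
      · right
        exact gdA p4 p1 p2 p3 q h12 h23 (by omega) hq (by omega) (by omega) (by omega) n4 a1 b2 a3 bq
  rcases hs with ⟨hA, hB⟩ | ⟨hA, hB, hd⟩
  · rcases four_alt b p1 p2 p3 p4 h12 h23 h34 hB with ⟨q, hq, bq, n1, n2, n3, n4⟩ | ⟨b1, -, b3, -⟩
    · exact key q hq bq n1 n2 n3 n4
    · rcases four_alt a p1 p2 p3 p4 h12 h23 h34 hA with ⟨q, hq, aq, n1, n2, n3, n4⟩ | ⟨-, a2, -, a4⟩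
      · rcases lt_or_ge q p1 with h | h
        · left
          exact gdA p2 q p1 p3 p4 h (by omega) h34 h4 n2 (by omega) (by omega) (by omega) aq b1 a3 b4
        · rcases lt_or_ge q p2 with h' | h'
          · right
            exact gdB p4 p1 q p2 p3 (by omega) h' h23 (by omega) (by omega) n4 (by omega) (by omega) b1 aq b2 a3
          · rcases lt_or_ge q p3 with h'' | h''
            · right
              exact gdA p4 p1 p2 q p3 h12 (by omega) h'' (by omega) (by omega) (by omega) n4 (by omega) a1 b2 aq b3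
            · rcases lt_or_ge q p4 with h3 | h3
              · left
                exact gdA p2 p1 p3 q p4 (by omega) (by omega) h3 h4 (by omega) (by omega) n2 (by omega) a1 b3 aq b4
              · left
                exact gdB p2 p1 p3 p4 q (by omega) h34 (by omega) hq (by omega) (by omega) (by omega) n2 b1 a3 b4 aq
      · left
        exact gdC p2 p1 p3 p4 (by omega) (by omega) h4 (by omega) (by omega) (by omega) (by omega) (by omega)
          (by omega) a1 b1 a3 b3 a4 b4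
  · obtain ⟨q, hq, bq, n2, n1, n4, n3⟩ := three_alt b p2 p4 p1 p3 (fun h => hd p1 (by omega) a1 h)
      (fun h => hd p3 (by omega) a3 h) hB
    exact key q hq bq n1 n2 n3 n4

/-- the main part: a crossing in the order `A, B, A, B` after the base point -/
theorem core {V : Type} {m : ℕ} (c : ZMod m → V) (A B : Set V) (hm : 3 ≤ m) (hc : Function.Injective c)
    (hA : A ⊆ Set.range c) (hB : B ⊆ Set.range c)
    (hs : (4 ≤ A.ncard ∧ 4 ≤ B.ncard) ∨ (3 ≤ A.ncard ∧ 3 ≤ B.ncard ∧ Disjoint A B))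
    (i : ZMod m) (p1 p2 p3 p4 : ℕ) (h12 : p1 < p2) (h23 : p2 < p3) (h34 : p3 < p4)
    (h4 : p4 < m) (a1 : c (i + p1) ∈ A) (b2 : c (i + p2) ∈ B) (a3 : c (i + p3) ∈ A) (b4 : c (i + p4) ∈ B) :
    {z | z ∈ Set.range c ∧ ¬ Crs m c (A \ {z}) (B \ {z})}.ncard ≤ 2 := by
  haveI : NeZero m := ⟨by omega⟩
  have hinj : ∀ s < m, ∀ t < m, c (i + s) = c (i + t) → s = t := by
    intro s hs' t ht h
    have h1 : (s : ZMod m) = (t : ZMod m) := add_left_cancel (hc h)
    rw [ZMod.natCast_eq_natCast_iff'] at h1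
    rwa [Nat.mod_eq_of_lt hs', Nat.mod_eq_of_lt ht] at h1
  have hsurj : ∀ z ∈ Set.range c, ∃ t < m, z = c (i + t) := by
    rintro z ⟨j, rfl⟩
    refine ⟨(j - i).val, ZMod.val_lt _, ?_⟩
    rw [ZMod.natCast_zmod_val]
    congr 1
    ring
  have hcard : ∀ S : Set V, S ⊆ Set.range c → S.ncard = {t : ℕ | t < m ∧ c (i + t) ∈ S}.ncard := by
    intro S hS
    have e : S = (fun t : ℕ => c (i + t)) '' {t : ℕ | t < m ∧ c (i + t) ∈ S} := by
      ext z
      constructor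
      · intro hz
        obtain ⟨t, ht, rfl⟩ := hsurj z (hS hz)
        exact ⟨t, ⟨ht, hz⟩, rfl⟩
      · rintro ⟨t, ⟨-, ht⟩, rfl⟩
        exact ht
    conv_lhs => rw [e]
    apply Set.ncard_image_of_injOn
    intro s hs' t ht h
    exact hinj s hs'.1 t ht.1 h
  have hSz : Sz m (fun t => c (i + t) ∈ A) (fun t => c (i + t) ∈ B) := by
    rcases hs with ⟨h1, h2⟩ | ⟨h1, h2, h3⟩
    · left
      rw [hcard A hA] at h1
      rw [hcard B hB] at h2
      exact ⟨h1, h2⟩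
    · right
      rw [hcard A hA] at h1
      rw [hcard B hB] at h2
      exact ⟨h1, h2, fun t _ ha hb => Set.disjoint_left.mp h3 ha hb⟩
  have hGd : ∀ z < m, Gd m (fun t => c (i + t) ∈ A) (fun t => c (i + t) ∈ B) z →
      Crs m c (A \ {c (i + z)}) (B \ {c (i + z)}) := by
    intro z hz h
    have hne : ∀ p < m, p ≠ z → c (i + p) ∉ ({c (i + z)} : Set V) := by
      intro p hp hpz h'
      exact hpz (hinj p hp z hz h')
    rcases h with ⟨p, q, r, s, h1, h2, h3, h4', n1, n2, n3, n4, h⟩ | ⟨p, q, r, h1, h2, h3, e1, e2, e3, n1, n2, n3,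
      hp, hp', hq, hq', hr, hr'⟩
    · rcases h with ⟨x1, x2, x3, x4⟩ | ⟨x1, x2, x3, x4⟩
      · exact crs_intro c _ _ i p q r s h1 h2 h3 h4' ⟨x1, hne p (by omega) n1⟩ ⟨x2, hne q (by omega) n2⟩
          ⟨x3, hne r (by omega) n3⟩ ⟨x4, hne s h4' n4⟩
      · exact crs_symm c _ _ (crs_intro c _ _ i p q r s h1 h2 h3 h4' ⟨x1, hne p (by omega) n1⟩
          ⟨x2, hne q (by omega) n2⟩ ⟨x3, hne r (by omega) n3⟩ ⟨x4, hne s h4' n4⟩)
    · right
      exact ⟨c (i + p), c (i + q), c (i + r), fun h => e1 (hinj p h1 q h2 h), fun h => e2 (hinj q h2 r h3 h),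
        fun h => e3 (hinj p h1 r h3 h), ⟨hp, hne p h1 n1⟩, ⟨hp', hne p h1 n1⟩, ⟨hq, hne q h2 n2⟩,
        ⟨hq', hne q h2 n2⟩, ⟨hr, hne r h3 n3⟩, ⟨hr', hne r h3 n3⟩⟩
  have hmem : ∀ z, z ∈ Set.range c ∧ ¬ Crs m c (A \ {z}) (B \ {z}) →
      z = c (i + p1) ∨ z = c (i + p2) ∨ z = c (i + p3) ∨ z = c (i + p4) := by
    rintro z ⟨hz, hn⟩
    obtain ⟨t, ht, rfl⟩ := hsurj z hz
    by_contra hcon
    simp only [not_or] at hcon
    obtain ⟨n1, n2, n3, n4⟩ := hcon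
    refine hn (hGd t ht (gdA t p1 p2 p3 p4 h12 h23 h34 h4 ?_ ?_ ?_ ?_ a1 b2 a3 b4))
    · rintro rfl; exact n1 rfl
    · rintro rfl; exact n2 rfl
    · rintro rfl; exact n3 rfl
    · rintro rfl; exact n4 rfl
  have h13 := L13 p1 p2 p3 p4 h12 h23 h34 h4 a1 b2 a3 b4 hSz
  have h24 := L24 p1 p2 p3 p4 h12 h23 h34 h4 a1 b2 a3 b4 hSz
  have hpair : ∃ u v : V, {z | z ∈ Set.range c ∧ ¬ Crs m c (A \ {z}) (B \ {z})} ⊆ ({u, v} : Set V) := by
    rcases h13 with g | g <;> rcases h24 with g' | g'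
    · refine ⟨c (i + p3), c (i + p4), ?_⟩
      intro z hz
      rcases hmem z hz with h | h | h | h
      · subst h; exact absurd (hGd p1 (by omega) g) hz.2
      · subst h; exact absurd (hGd p2 (by omega) g') hz.2
      · exact Or.inl h
      · exact Or.inr h
    · refine ⟨c (i + p3), c (i + p2), ?_⟩
      intro z hz
      rcases hmem z hz with h | h | h | h
      · subst h; exact absurd (hGd p1 (by omega) g) hz.2
      · exact Or.inr h
      · exact Or.inl h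
      · subst h; exact absurd (hGd p4 (by omega) g') hz.2
    · refine ⟨c (i + p1), c (i + p4), ?_⟩
      intro z hz
      rcases hmem z hz with h | h | h | h
      · exact Or.inl h
      · subst h; exact absurd (hGd p2 (by omega) g') hz.2
      · subst h; exact absurd (hGd p3 (by omega) g) hz.2
      · exact Or.inr h
    · refine ⟨c (i + p1), c (i + p2), ?_⟩
      intro z hz
      rcases hmem z hz with h | h | h | h
      · exact Or.inl h
      · exact Or.inr h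
      · subst h; exact absurd (hGd p3 (by omega) g) hz.2
      · subst h; exact absurd (hGd p4 (by omega) g') hz.2
  obtain ⟨u, v, huv⟩ := hpair
  have h3 := Set.ncard_le_ncard huv (Set.toFinite _)
  have h5 : ({u, v} : Set V).ncard ≤ 2 := by
    classical
    have e : ({u, v} : Set V) = ((({u, v} : Finset V)) : Set V) := by simp
    rw [e, Set.ncard_coe_finset]
    exact Finset.card_le_two
  omega

theorem core' {V : Type} {m : ℕ} (c : ZMod m → V) (A B : Set V) (hm : 3 ≤ m) (hc : Function.Injective c)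
    (hA : A ⊆ Set.range c) (hB : B ⊆ Set.range c)
    (hs : (4 ≤ A.ncard ∧ 4 ≤ B.ncard) ∨ (3 ≤ A.ncard ∧ 3 ≤ B.ncard ∧ Disjoint A B))
    (i : ZMod m) (p1 p2 p3 p4 : ℕ) (h12 : p1 < p2) (h23 : p2 < p3) (h34 : p3 < p4)
    (h4 : p4 < m) (a1 : c (i + p1) ∈ B) (b2 : c (i + p2) ∈ A) (a3 : c (i + p3) ∈ B) (b4 : c (i + p4) ∈ A) :
    {z | z ∈ Set.range c ∧ ¬ Crs m c (A \ {z}) (B \ {z})}.ncard ≤ 2 := by
  have hs' : (4 ≤ B.ncard ∧ 4 ≤ A.ncard) ∨ (3 ≤ B.ncard ∧ 3 ≤ A.ncard ∧ Disjoint B A) := by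
    rcases hs with ⟨h1, h2⟩ | ⟨h1, h2, h3⟩
    · exact Or.inl ⟨h2, h1⟩
    · exact Or.inr ⟨h2, h1, h3.symm⟩
  have h := core c B A hm hc hB hA hs' i p1 p2 p3 p4 h12 h23 h34 h4 a1 b2 a3 b4
  have e : {z | z ∈ Set.range c ∧ ¬ Crs m c (A \ {z}) (B \ {z})} =
      {z | z ∈ Set.range c ∧ ¬ Crs m c (B \ {z}) (A \ {z})} := by
    ext z
    constructor
    · rintro ⟨h1, h2⟩
      exact ⟨h1, fun h3 => h2 (crs_symm c _ _ h3)⟩
    · rintro ⟨h1, h2⟩
      exact ⟨h1, fun h3 => h2 (crs_symm c _ _ h3)⟩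
  rw [e]
  exact h

/-- three common positions in order and a fourth one in `A` -/
theorem sorted3 {V : Type} {m : ℕ} (c : ZMod m → V) (A B : Set V) (hm : 3 ≤ m) (hc : Function.Injective c)
    (hA : A ⊆ Set.range c) (hB : B ⊆ Set.range c)
    (hs : (4 ≤ A.ncard ∧ 4 ≤ B.ncard) ∨ (3 ≤ A.ncard ∧ 3 ≤ B.ncard ∧ Disjoint A B))
    (i : ZMod m) (p1 p2 p3 q : ℕ) (h12 : p1 < p2) (h23 : p2 < p3) (h3 : p3 < m) (hq : q < m)
    (n1 : q ≠ p1) (n2 : q ≠ p2) (n3 : q ≠ p3)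
    (a1 : c (i + p1) ∈ A) (b1 : c (i + p1) ∈ B) (a2 : c (i + p2) ∈ A) (b2 : c (i + p2) ∈ B)
    (a3 : c (i + p3) ∈ A) (b3 : c (i + p3) ∈ B) (aq : c (i + q) ∈ A) :
    {z | z ∈ Set.range c ∧ ¬ Crs m c (A \ {z}) (B \ {z})}.ncard ≤ 2 := by
  rcases lt_or_ge q p1 with h | h
  · exact core c A B hm hc hA hB hs i q p1 p2 p3 h h12 h23 h3 aq b1 a2 b3
  · rcases lt_or_ge q p2 with h' | h'
    · exact core' c A B hm hc hA hB hs i p1 q p2 p3 (by omega) h' h23 h3 b1 aq b2 a3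
    · rcases lt_or_ge q p3 with h'' | h''
      · exact core c A B hm hc hA hB hs i p1 p2 q p3 h12 (by omega) h'' h3 a1 b2 aq b3
      · exact core' c A B hm hc hA hB hs i p1 p2 p3 q h12 h23 (by omega) hq b1 a2 b3 aq

theorem hCMC : StCMC := by
  intro V m c A B hm hc hA hB hs hcr
  haveI : NeZero m := ⟨by omega⟩
  rcases hcr with ⟨i, r, s, t, h1, h2, h3, h4, ha, hb, ha', hb'⟩ | ⟨x, y, z, hxy, hyz, hxz, xA, xB, yA, yB, zA, zB⟩
  · exact core c A B hm hc hA hB hs i 0 r s t h1 h2 h3 h4 (by simpa using ha) hb ha' hb'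
  · have h4 : 4 ≤ A.ncard := by
      rcases hs with ⟨h, -⟩ | ⟨-, -, h⟩
      · exact h
      · exact absurd xB (Set.disjoint_left.mp h xA)
    have hfin : A.Finite := Set.finite_of_ncard_ne_zero (by omega)
    obtain ⟨w, wA, wx, wy, wz⟩ : ∃ w ∈ A, w ≠ x ∧ w ≠ y ∧ w ≠ z := by
      by_contra hcon
      have hsub : A ⊆ ({x, y, z} : Set V) := by
        intro w hw
        by_contra hn
        simp only [Set.mem_insert_iff, Set.mem_singleton_iff, not_or] at hn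
        exact hcon ⟨w, hw, hn.1, hn.2.1, hn.2.2⟩
      have h5 := Set.ncard_le_ncard hsub (Set.toFinite _)
      have h6 : ({x, y, z} : Set V).ncard ≤ 3 := by
        classical
        have e : ({x, y, z} : Set V) = ((({x, y, z} : Finset V)) : Set V) := by simp
        rw [e, Set.ncard_coe_finset]
        exact Finset.card_le_three
      omega
    have hsurj : ∀ u ∈ A, ∃ t < m, u = c (0 + (t : ZMod m)) := by
      intro u hu
      obtain ⟨j, rfl⟩ := hA hu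
      refine ⟨j.val, ZMod.val_lt _, ?_⟩
      rw [ZMod.natCast_zmod_val, zero_add]
    obtain ⟨px, hpx, rfl⟩ := hsurj x xA
    obtain ⟨py, hpy, rfl⟩ := hsurj y yA
    obtain ⟨pz, hpz, rfl⟩ := hsurj z zA
    obtain ⟨q, hq, rfl⟩ := hsurj w wA
    have nxy : px ≠ py := fun h => hxy (by rw [h])
    have nyz : py ≠ pz := fun h => hyz (by rw [h])
    have nxz : px ≠ pz := fun h => hxz (by rw [h])
    have nq1 : q ≠ px := fun h => wx (by rw [h])
    have nq2 : q ≠ py := fun h => wy (by rw [h])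
    have nq3 : q ≠ pz := fun h => wz (by rw [h])
    rcases lt_or_gt_of_ne nxy with g1 | g1 <;> rcases lt_or_gt_of_ne nyz with g2 | g2 <;>
      rcases lt_or_gt_of_ne nxz with g3 | g3
    · exact sorted3 c A B hm hc hA hB hs 0 px py pz q g1 g2 hpz hq nq1 nq2 nq3 xA xB yA yB zA zB wA
    · omega
    · exact sorted3 c A B hm hc hA hB hs 0 px pz py q g3 g2 hpy hq nq1 nq3 nq2 xA xB zA zB yA yB wA
    · exact sorted3 c A B hm hc hA hB hs 0 pz px py q g3 g1 hpy hq nq3 nq1 nq2 zA zB xA xB yA yB wA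
    · exact sorted3 c A B hm hc hA hB hs 0 py px pz q g1 g3 hpz hq nq2 nq1 nq3 yA yB xA xB zA zB wA
    · exact sorted3 c A B hm hc hA hB hs 0 py pz px q g2 g3 hpx hq nq2 nq3 nq1 yA yB zA zB xA xB wA
    · omega
    · exact sorted3 c A B hm hc hA hB hs 0 pz py px q g2 g1 hpx hq nq3 nq2 nq1 zA zB yA yB xA xB wA

end Pool.Agent.Helper81.NK
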